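import Mathlib
import Pool.Agent.H238.PH.Spec

/-! Task D of the project PH of helper238. -/

set_option autoImplicit false

namespace Pool.Agent.H767.PH

open MeasureTheory Set Filter Topology
open Pool.Agent.H238.PH

/-- a continuous periodic function without nonzero Fourier coefficients is constant -/
lemma const_of_fourier {ψ : ℝ → ℝ} (hc : Continuous ψ) (hp : ∀ t, ψ (t + 2 * Real.pi) = ψ t)
    (h1 : ∀ k : ℕ, 1 ≤ k → ∫ t in (-Real.pi)..Real.pi, Real.cos (k * t) * ψ t = 0)
    (h2 : ∀ k : ℕ, 1 ≤ k → ∫ t in (-Real.pi)..Real.pi, Real.sin (k * t) * ψ t = 0) :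
    ∃ c : ℝ, ∀ t, ψ t = c := by
  have hT : Fact (0 < 2 * Real.pi) := ⟨by positivity⟩
  have hper : Function.Periodic (fun t => (ψ t : ℂ)) (2 * Real.pi) := fun t => by
    simp only [hp]
  have hcont : Continuous (hper.lift) := by
    refine (QuotientAddGroup.isQuotientMap_mk _).continuous_iff.mpr ?_
    exact Complex.continuous_ofReal.comp hc
  let f : C(AddCircle (2 * Real.pi), ℂ) := ⟨hper.lift, hcont⟩
  have hf : ∀ t : ℝ, f (t : AddCircle (2 * Real.pi)) = ψ t := fun t => rfl
  have hcos : ∀ n : ℤ, n ≠ 0 → ∫ t in (-Real.pi)..Real.pi, Real.cos (n * t) * ψ t = 0 := by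
    intro n hn
    obtain ⟨k, rfl | rfl⟩ := Int.eq_nat_or_neg n
    · have := h1 k (by omega)
      simpa using this
    · rw [← h1 k (by omega)]
      refine intervalIntegral.integral_congr fun t _ => ?_
      show Real.cos (((-(k : ℤ) : ℤ) : ℝ) * t) * ψ t = Real.cos (k * t) * ψ t
      rw [Int.cast_neg, Int.cast_natCast, neg_mul, Real.cos_neg]
  have hsin : ∀ n : ℤ, n ≠ 0 → ∫ t in (-Real.pi)..Real.pi, Real.sin (n * t) * ψ t = 0 := by
    intro n hn
    obtain ⟨k, rfl | rfl⟩ := Int.eq_nat_or_neg n
    · have := h2 k (by omega)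
      simpa using this
    · have e : (∫ t in (-Real.pi)..Real.pi, Real.sin (((-(k : ℤ) : ℤ) : ℝ) * t) * ψ t) =
          ∫ t in (-Real.pi)..Real.pi, -(Real.sin (k * t) * ψ t) := by
        refine intervalIntegral.integral_congr fun t _ => ?_
        show Real.sin (((-(k : ℤ) : ℤ) : ℝ) * t) * ψ t = -(Real.sin (k * t) * ψ t)
        rw [Int.cast_neg, Int.cast_natCast, neg_mul, Real.sin_neg]; ring
      rw [e, intervalIntegral.integral_neg, h2 k (by omega), neg_zero]
  have hcoef : ∀ n : ℤ, n ≠ 0 → fourierCoeff f n = 0 := by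
    intro n hn
    rw [fourierCoeff_eq_intervalIntegral f n (-Real.pi)]
    have e0 : -Real.pi + 2 * Real.pi = Real.pi := by ring
    rw [e0]
    have e : (∫ x in (-Real.pi)..Real.pi, @fourier (2 * Real.pi) (-n) x • f x) = 0 := by
      have e1 : (∫ x in (-Real.pi)..Real.pi, @fourier (2 * Real.pi) (-n) x • f x) =
          ∫ x in (-Real.pi)..Real.pi, (((Real.cos (n * x) * ψ x : ℝ) : ℂ) -
            Complex.I * ((Real.sin (n * x) * ψ x : ℝ) : ℂ)) := by
        refine intervalIntegral.integral_congr fun x _ => ?_
        simp only [smul_eq_mul]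
        rw [hf, fourier_coe_apply]
        have e2 : (2 * (Real.pi : ℂ) * Complex.I * ((-n : ℤ) : ℂ) * x / ((2 * Real.pi : ℝ) : ℂ)) =
            ((-(n * x : ℝ) : ℝ) : ℂ) * Complex.I := by
          have : (Real.pi : ℂ) ≠ 0 := by exact_mod_cast Real.pi_ne_zero
          push_cast
          field_simp
        rw [e2, Complex.exp_mul_I, ← Complex.ofReal_cos, ← Complex.ofReal_sin, Real.cos_neg,
          Real.sin_neg]
        push_cast
        ring
      rw [e1, intervalIntegral.integral_sub, intervalIntegral.integral_ofReal,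
        intervalIntegral.integral_const_mul, intervalIntegral.integral_ofReal, hcos n hn,
        hsin n hn]
      · simp
      · exact (by fun_prop : Continuous fun x => ((Real.cos (n * x) * ψ x : ℝ) : ℂ)).intervalIntegrable _ _
      · exact (by fun_prop : Continuous fun x => Complex.I * ((Real.sin (n * x) * ψ x : ℝ) : ℂ)).intervalIntegrable _ _
    rw [e, smul_zero]
  have hsum : Summable (fourierCoeff f) :=
    summable_of_ne_finset_zero (s := {0}) fun n hn => hcoef n (by simpa using hn)
  have hs := hasSum_fourier_series_of_summable hsum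
  have hs2 := hasSum_single (f := fun i => fourierCoeff f i •
      (fourier i : C(AddCircle (2 * Real.pi), ℂ))) 0 fun n hn => by
    rw [hcoef n hn]
    ext x
    simp
  have heq : f = fourierCoeff f 0 • (fourier 0 : C(AddCircle (2 * Real.pi), ℂ)) :=
    hs.unique hs2
  refine ⟨(fourierCoeff f 0).re, fun t => ?_⟩
  have h3 := hf t
  rw [heq] at h3
  have h4 : (ψ t : ℂ) = fourierCoeff f 0 := by
    rw [← h3]
    simp
  have h5 := congrArg Complex.re h4
  simpa using h5

/-- the scalar version -/
lemma scalar {f g : ℝ → ℝ} {C : ℝ} (hC : C ≠ 0) (hf : Continuous f) (hg : Continuous g)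
    (pf : ∀ t, f (t + 2 * Real.pi) = f t) (pg : ∀ t, g (t + 2 * Real.pi) = g t)
    (h1 : ∀ k : ℕ, ∫ t in (-Real.pi)..Real.pi, (-(k : ℝ) * Real.sin (k * t)) * g t
      = C * ∫ t in (-Real.pi)..Real.pi, Real.cos (k * t) * f t)
    (h2 : ∀ k : ℕ, ∫ t in (-Real.pi)..Real.pi, ((k : ℝ) * Real.cos (k * t)) * g t
      = C * ∫ t in (-Real.pi)..Real.pi, Real.sin (k * t) * f t) (t : ℝ) :
    HasDerivAt g (-(C * f t)) t := by
  have hint : ∀ a b, IntervalIntegrable f volume a b := fun a b => hf.intervalIntegrable a b
  have h0 : ∫ t in (-Real.pi)..Real.pi, f t = 0 := by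
    have := h1 0
    simp only [Nat.cast_zero, neg_zero, zero_mul, Real.sin_zero, Real.cos_zero, one_mul,
      intervalIntegral.integral_zero] at this
    rcases mul_eq_zero.mp this.symm with h | h
    · exact absurd h hC
    · exact h
  set Φ : ℝ → ℝ := fun t => ∫ s in (0 : ℝ)..t, f s with hΦ
  have hΦd : ∀ t, HasDerivAt Φ (f t) t := fun t =>
    intervalIntegral.integral_hasDerivAt_right (hint 0 t)
      (hf.stronglyMeasurableAtFilter _ _) hf.continuousAt
  have hΦc : Continuous Φ := continuous_iff_continuousAt.mpr fun t => (hΦd t).continuousAt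
  have hΦp : ∀ t, Φ (t + 2 * Real.pi) = Φ t := by
    intro t
    have e1 : Φ (t + 2 * Real.pi) = Φ t + ∫ s in t..(t + 2 * Real.pi), f s :=
      (intervalIntegral.integral_add_adjacent_intervals (hint 0 t) (hint t _)).symm
    have e2 := Function.Periodic.intervalIntegral_add_eq (f := f) (T := 2 * Real.pi) pf t (-Real.pi)
    have e3 : -Real.pi + 2 * Real.pi = Real.pi := by ring
    rw [e3, h0] at e2
    rw [e1, e2, add_zero]
  have hΦpi : Φ Real.pi = Φ (-Real.pi) := by
    have := hΦp (-Real.pi)
    have e3 : -Real.pi + 2 * Real.pi = Real.pi := by ring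
    rwa [e3] at this
  have hψ := const_of_fourier (ψ := fun t => g t + C * Φ t) (hg.add (continuous_const.mul hΦc))
    (fun t => by
      show g (t + 2 * Real.pi) + C * Φ (t + 2 * Real.pi) = g t + C * Φ t
      rw [pg, hΦp])
    (by
      intro k hk
      have hk' : (k : ℝ) ≠ 0 := by
        have : k ≠ 0 := by omega
        exact_mod_cast this
      have hibp := intervalIntegral.integral_mul_deriv_eq_deriv_mul (a := -Real.pi) (b := Real.pi)
        (u := Φ) (u' := f) (v := fun t => Real.sin (k * t)) (v' := fun t => k * Real.cos (k * t))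
        (fun x _ => hΦd x)
        (fun x _ => by
          have := ((hasDerivAt_id x).const_mul (k : ℝ)).sin
          refine this.congr_deriv ?_
          simp only [id_eq, mul_one]; ring)
        (hint _ _) ((by fun_prop : Continuous fun t : ℝ => k * Real.cos (k * t)).intervalIntegrable _ _)
      have es : Real.sin (k * Real.pi) = 0 := Real.sin_nat_mul_pi k
      have es' : Real.sin (k * -Real.pi) = 0 := by rw [mul_neg, Real.sin_neg, es, neg_zero]
      simp only [es, es', mul_zero, sub_zero, zero_sub] at hibp
      have e1 : (k : ℝ) * ∫ t in (-Real.pi)..Real.pi, Real.cos (k * t) * (g t + C * Φ t) = 0 := by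
        rw [← intervalIntegral.integral_const_mul]
        have e2 : (∫ t in (-Real.pi)..Real.pi, (k : ℝ) * (Real.cos (k * t) * (g t + C * Φ t))) =
            ∫ t in (-Real.pi)..Real.pi, (((k : ℝ) * Real.cos (k * t)) * g t +
              C * (Φ t * (k * Real.cos (k * t)))) := by
          refine intervalIntegral.integral_congr fun t _ => ?_
          show (k : ℝ) * (Real.cos (k * t) * (g t + C * Φ t)) = _
          ring
        rw [e2, intervalIntegral.integral_add, h2, intervalIntegral.integral_const_mul, hibp]
        · have e3 : (∫ t in (-Real.pi)..Real.pi, f t * Real.sin (k * t)) =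
              ∫ t in (-Real.pi)..Real.pi, Real.sin (k * t) * f t :=
            intervalIntegral.integral_congr fun t _ => mul_comm _ _
          rw [e3]; ring
        · exact (by fun_prop : Continuous fun t => ((k : ℝ) * Real.cos (k * t)) * g t).intervalIntegrable _ _
        · exact (by fun_prop : Continuous fun t => C * (Φ t * (k * Real.cos (k * t)))).intervalIntegrable _ _
      rcases mul_eq_zero.mp e1 with h | h
      · exact absurd h hk'
      · exact h)
    (by
      intro k hk
      have hk' : (k : ℝ) ≠ 0 := by
        have : k ≠ 0 := by omega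
        exact_mod_cast this
      have hibp := intervalIntegral.integral_mul_deriv_eq_deriv_mul (a := -Real.pi) (b := Real.pi)
        (u := Φ) (u' := f) (v := fun t => Real.cos (k * t)) (v' := fun t => -k * Real.sin (k * t))
        (fun x _ => hΦd x)
        (fun x _ => by
          have := ((hasDerivAt_id x).const_mul (k : ℝ)).cos
          refine this.congr_deriv ?_
          simp only [id_eq, mul_one]; ring)
        (hint _ _) ((by fun_prop : Continuous fun t : ℝ => -k * Real.sin (k * t)).intervalIntegrable _ _)
      have es' : Real.cos (k * -Real.pi) = Real.cos (k * Real.pi) := by rw [mul_neg, Real.cos_neg]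
      simp only [es', hΦpi, sub_self, zero_sub] at hibp
      have e1 : (-(k : ℝ)) * ∫ t in (-Real.pi)..Real.pi, Real.sin (k * t) * (g t + C * Φ t) = 0 := by
        rw [← intervalIntegral.integral_const_mul]
        have e2 : (∫ t in (-Real.pi)..Real.pi, (-(k : ℝ)) * (Real.sin (k * t) * (g t + C * Φ t))) =
            ∫ t in (-Real.pi)..Real.pi, ((-(k : ℝ) * Real.sin (k * t)) * g t +
              C * (Φ t * (-k * Real.sin (k * t)))) := by
          refine intervalIntegral.integral_congr fun t _ => ?_
          show (-(k : ℝ)) * (Real.sin (k * t) * (g t + C * Φ t)) = _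
          ring
        rw [e2, intervalIntegral.integral_add, h1, intervalIntegral.integral_const_mul, hibp]
        · have e3 : (∫ t in (-Real.pi)..Real.pi, f t * Real.cos (k * t)) =
              ∫ t in (-Real.pi)..Real.pi, Real.cos (k * t) * f t :=
            intervalIntegral.integral_congr fun t _ => mul_comm _ _
          rw [e3]; ring
        · exact (by fun_prop : Continuous fun t => (-(k : ℝ) * Real.sin (k * t)) * g t).intervalIntegrable _ _
        · exact (by fun_prop : Continuous fun t => C * (Φ t * (-k * Real.sin (k * t)))).intervalIntegrable _ _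
      rcases mul_eq_zero.mp e1 with h | h
      · exact absurd (neg_eq_zero.mp h) hk'
      · exact h)
  obtain ⟨c, hc⟩ := hψ
  have hgc : g = fun t => c - C * Φ t := by
    funext t
    have := hc t
    linarith
  rw [hgc]
  have := ((hΦd t).const_mul C).const_sub c
  exact this

theorem t_D : S_D := by
  intro n F G C hC hF hG pF pG h1 h2 t
  have hcomp : ∀ (H : ℝ → RE n), Continuous H → ∀ (c : ℝ → ℝ), Continuous c → ∀ i : Fin n,
      (∫ t in (-Real.pi)..Real.pi, c t • H t) i = ∫ t in (-Real.pi)..Real.pi, c t * H t i := by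
    intro H hH c hc i
    have := ContinuousLinearMap.intervalIntegral_comp_comm (EuclideanSpace.proj (𝕜 := ℝ) i)
      (f := fun t => c t • H t) (μ := volume) (a := -Real.pi) (b := Real.pi)
      ((hc.smul hH).intervalIntegrable _ _)
    simpa using this.symm
  have hco : ∀ i : Fin n, HasDerivAt (fun t => G t i) (-(C * F t i)) t := by
    intro i
    refine scalar hC ((EuclideanSpace.proj (𝕜 := ℝ) i).continuous.comp hF)
      ((EuclideanSpace.proj (𝕜 := ℝ) i).continuous.comp hG)
      (fun t => by
        show F (t + 2 * Real.pi) i = F t i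
        rw [pF])
      (fun t => by
        show G (t + 2 * Real.pi) i = G t i
        rw [pG]) ?_ ?_ t
    · intro k
      have := congrArg (fun v : RE n => v i) (h1 k)
      simp only [PiLp.smul_apply, smul_eq_mul] at this
      rw [hcomp G hG _ (by fun_prop) i, hcomp F hF _ (by fun_prop) i] at this
      exact this
    · intro k
      have := congrArg (fun v : RE n => v i) (h2 k)
      simp only [PiLp.smul_apply, smul_eq_mul] at this
      rw [hcomp G hG _ (by fun_prop) i, hcomp F hF _ (by fun_prop) i] at this
      exact this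
  rw [hasDerivAt_iff_hasFDerivAt, ← hasFDerivWithinAt_univ, hasFDerivWithinAt_euclidean]
  intro i
  rw [hasFDerivWithinAt_univ]
  have := (hco i).hasFDerivAt
  refine this.congr_fderiv ?_
  ext
  simp

end Pool.Agent.H767.PH

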